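import Pool.Agent.Lib_MP_fbc045_an.Assembly

/-!
# Transport of the homeomorphism to an arbitrary segment
-/

set_option autoImplicit false

open Filter Topology MeasureTheory Pool.Agent.MPfbc045

namespace Pool.Agent.MPfbc045ins

/-- The pointwise distortion of a linear map: `|T|^2 / det T` if `det T > 0`, and `1` otherwise. -/
noncomputable def distortionAt (T : ℂ →L[ℝ] ℂ) : ℝ :=
  if 0 < T.det then ‖T‖ ^ 2 / T.det else 1

/-- Locally exponentially integrable distortion, as in the problem file. -/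
def HasExpDistortion (f : ℂ → ℂ) : Prop :=
  ∃ Df : ℂ → ℂ →L[ℝ] ℂ, LocallyIntegrable Df volume ∧
    (∀ φ : ℂ → ℝ, ContDiff ℝ 1 φ → HasCompactSupport φ → ∀ v : ℂ,
      ∫ x, (fderiv ℝ φ x v) • f x = - ∫ x, φ x • Df x v) ∧
    LocallyIntegrable (fun x => (Df x).det) volume ∧
    (∃ K : ℂ → ℝ, Measurable K ∧ (∀ x, 1 ≤ K x) ∧ ∀ᵐ x : ℂ, ‖Df x‖ ^ 2 ≤ K x * (Df x).det) ∧
    ∃ lam : ℝ, 0 < lam ∧
      LocallyIntegrable (fun x => Real.exp (lam * distortionAt (Df x))) volume

/-- Multiplication by `u`. -/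
noncomputable def mulL (u : ℂ) : ℂ →L[ℝ] ℂ := ContinuousLinearMap.mul ℝ ℂ u

lemma mulL_apply (u w : ℂ) : mulL u w = u * w := rfl

lemma norm_mulL (u : ℂ) : ‖mulL u‖ ≤ ‖u‖ := ContinuousLinearMap.opNorm_mul_apply_le ℝ ℂ u

lemma mulL_comp {u : ℂ} (hu : u ≠ 0) : (mulL u).comp (mulL u⁻¹) = ContinuousLinearMap.id ℝ ℂ := by
  apply ContinuousLinearMap.ext
  intro w
  simp [mulL_apply, hu]

lemma det_mul (A B : ℂ →L[ℝ] ℂ) : (A.comp B).det = A.det * B.det := by
  change LinearMap.det ((A : ℂ →ₗ[ℝ] ℂ).comp (B : ℂ →ₗ[ℝ] ℂ)) = _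
  rw [LinearMap.det_comp]

lemma det_mulL {u : ℂ} (hu : u ≠ 0) : (mulL u).det * (mulL u⁻¹).det = 1 := by
  rw [← det_mul, mulL_comp hu]
  simp [ContinuousLinearMap.det]

/-- The similarity `z ↦ p + u z`. -/
noncomputable def S (p u : ℂ) (hu : u ≠ 0) : ℂ ≃ₜ ℂ :=
  (Homeomorph.mulLeft₀ u hu).trans (Homeomorph.addLeft p)

lemma S_apply (p u : ℂ) (hu : u ≠ 0) (z : ℂ) : S p u hu z = p + u * z := rfl

lemma S_symm_apply (p u : ℂ) (hu : u ≠ 0) (z : ℂ) : (S p u hu).symm z = (z - p) / u := by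
  rw [Homeomorph.symm_apply_eq, S_apply]
  field_simp
  ring

lemma map_S (p u : ℂ) (hu : u ≠ 0) : ∃ c : ENNReal, c ≠ 0 ∧ c ≠ ⊤ ∧
    Measure.map (S p u hu) volume = c • (volume : Measure ℂ) := by
  have hdet : LinearMap.det (mulL u : ℂ →ₗ[ℝ] ℂ) ≠ 0 := by
    intro h
    have := det_mulL hu
    unfold ContinuousLinearMap.det at this
    rw [h, zero_mul] at this
    exact zero_ne_one this
  refine ⟨ENNReal.ofReal |(LinearMap.det (mulL u : ℂ →ₗ[ℝ] ℂ))⁻¹|, ?_, ENNReal.ofReal_ne_top, ?_⟩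
  · simp [hdet]
  · have h1 : (S p u hu : ℂ → ℂ) = (fun z => p + z) ∘ (mulL u : ℂ →ₗ[ℝ] ℂ) := rfl
    rw [h1, ← Measure.map_map (by fun_prop) (by exact (mulL u).continuous.measurable),
      Measure.map_linearMap_addHaar_eq_smul_addHaar volume hdet, Measure.map_smul,
      map_add_left_eq_self]

lemma map_S_symm (p u : ℂ) (hu : u ≠ 0) : ∃ c : ENNReal, c ≠ 0 ∧ c ≠ ⊤ ∧
    Measure.map (S p u hu).symm volume = c • (volume : Measure ℂ) := by
  obtain ⟨c, hc0, hct, hc⟩ := map_S p u hu
  refine ⟨c⁻¹, by simpa using hct, by simpa using hc0, ?_⟩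
  have h1 : Measure.map (S p u hu).symm (Measure.map (S p u hu) volume) = (volume : Measure ℂ) := by
    rw [Measure.map_map (S p u hu).symm.continuous.measurable (S p u hu).continuous.measurable]
    simp
  rw [hc, Measure.map_smul] at h1
  rw [← h1, smul_smul, ENNReal.inv_mul_cancel hc0 hct, one_smul, h1]

lemma locallyIntegrable_comp_symm {F : Type*} [NormedAddCommGroup F] {G : ℂ → F}
    (hG : LocallyIntegrable G volume) (p u : ℂ) (hu : u ≠ 0) :
    LocallyIntegrable (fun z => G ((S p u hu).symm z)) volume := by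
  have h1 := locallyIntegrable_map_homeomorph (S p u hu).symm (f := G) (μ := volume)
  change LocallyIntegrable (G ∘ (S p u hu).symm) volume
  rw [← h1]
  obtain ⟨c, hc0, hct, hc⟩ := map_S_symm p u hu
  rw [hc]
  intro x
  obtain ⟨U, hU, hi⟩ := hG x
  refine ⟨U, hU, ?_⟩
  unfold IntegrableOn at hi ⊢
  rw [Measure.restrict_smul]
  exact hi.smul_measure hct

lemma ae_comp_symm {P : ℂ → Prop} (hP : ∀ᵐ z : ℂ, P z) (p u : ℂ) (hu : u ≠ 0) :
    ∀ᵐ z : ℂ, P ((S p u hu).symm z) := by
  obtain ⟨c, hc0, hct, hc⟩ := map_S_symm p u hu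
  apply ae_of_ae_map (S p u hu).symm.continuous.aemeasurable
  rw [hc]
  exact Measure.ae_smul_measure hP c

lemma integral_S {H₁ H₂ : ℂ → ℂ} (p u : ℂ) (hu : u ≠ 0)
    (h : ∫ x, H₁ (S p u hu x) = - ∫ x, H₂ (S p u hu x)) : ∫ x, H₁ x = - ∫ x, H₂ x := by
  obtain ⟨c, hc0, hct, hc⟩ := map_S p u hu
  have h1 : ∀ H : ℂ → ℂ, ∫ x, H (S p u hu x) = c.toReal • ∫ x, H x := by
    intro H
    have h2 := (S p u hu).measurableEmbedding.integral_map (μ := volume) H
    rw [← h2, hc, integral_smul_measure]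
  rw [h1, h1, ← smul_neg] at h
  have hcr : c.toReal ≠ 0 := (ENNReal.toReal_pos hc0 hct).ne'
  exact smul_right_injective ℂ hcr h

/-- The transported homeomorphism. -/
noncomputable def tr (p u : ℂ) (hu : u ≠ 0) : ℂ ≃ₜ ℂ :=
  ((S p u hu).symm.trans fh).trans (S p u hu)

lemma tr_apply (p u : ℂ) (hu : u ≠ 0) (z : ℂ) :
    tr p u hu z = p + u * ext g ((S p u hu).symm z) := rfl

/-- Its derivative. -/
noncomputable def Dtr (p u : ℂ) (hu : u ≠ 0) (z : ℂ) : ℂ →L[ℝ] ℂ :=
  (mulL u).comp ((DE g ((S p u hu).symm z)).comp (mulL u⁻¹))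

lemma hasFDerivAt_symm (p u : ℂ) (hu : u ≠ 0) (z : ℂ) :
    HasFDerivAt (fun z => (S p u hu).symm z) (mulL u⁻¹) z := by
  have h1 : (fun z => (S p u hu).symm z) = fun z => mulL u⁻¹ z - mulL u⁻¹ p := by
    funext z
    rw [S_symm_apply, mulL_apply, mulL_apply]
    ring
  rw [h1]
  exact (mulL u⁻¹).hasFDerivAt.sub_const _

lemma hasFDerivAt_tr (p u : ℂ) (hu : u ≠ 0) {z : ℂ} (hz : ((S p u hu).symm z).im ≠ 0) :
    HasFDerivAt (tr p u hu) (Dtr p u hu z) z := by
  have h1 := (ext_hasFDerivAt g_continuous hz).comp z (hasFDerivAt_symm p u hu z)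
  have h2 := ((mulL u).hasFDerivAt (x := ext g ((S p u hu).symm z))).comp z h1
  exact h2.const_add p

lemma det_Dtr (p u : ℂ) (hu : u ≠ 0) (z : ℂ) :
    (Dtr p u hu z).det = (DE g ((S p u hu).symm z)).det := by
  unfold Dtr
  rw [det_mul, det_mul]
  have := det_mulL hu
  calc (mulL u).det * ((DE g ((S p u hu).symm z)).det * (mulL u⁻¹).det) =
      ((mulL u).det * (mulL u⁻¹).det) * (DE g ((S p u hu).symm z)).det := by ring
    _ = _ := by rw [this, one_mul]

lemma norm_Dtr (p u : ℂ) (hu : u ≠ 0) (z : ℂ) :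
    ‖Dtr p u hu z‖ ≤ ‖DE g ((S p u hu).symm z)‖ := by
  unfold Dtr
  have hu' : 0 < ‖u‖ := norm_pos_iff.2 hu
  calc _ ≤ ‖mulL u‖ * ‖(DE g ((S p u hu).symm z)).comp (mulL u⁻¹)‖ :=
        ContinuousLinearMap.opNorm_comp_le _ _
    _ ≤ ‖u‖ * (‖DE g ((S p u hu).symm z)‖ * ‖u⁻¹‖) := by
        gcongr
        · exact norm_mulL u
        · refine (ContinuousLinearMap.opNorm_comp_le _ _).trans ?_
          gcongr
          exact norm_mulL _
    _ = ‖DE g ((S p u hu).symm z)‖ := by
        rw [norm_inv]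
        field_simp

lemma det_pos {z : ℂ} (hz : z.im ≠ 0) : 0 < (DE g z).det := by
  change 0 < LinearMap.det ((DE g z : ℂ →L[ℝ] ℂ) : ℂ →ₗ[ℝ] ℂ)
  unfold DE
  rw [L_det]
  have key : ∀ p q p' q' : ℝ, 0 < p' → p' ≤ p → 0 < q' → q' ≤ q →
      0 < ((p + q) / 2) * ((p' + q') / 2) - ((p' - q') / 2) * ((p - q) / 2) := by
    intro p q p' q' hp' hp hq' hq
    have e2 : ((p + q) / 2) * ((p' + q') / 2) - ((p' - q') / 2) * ((p - q) / 2) =
      (p * q' + q * p') / 2 := by ring
    rw [e2]
    have hp0 : 0 < p := by linarith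
    have hq0 : 0 < q := by linarith
    positivity
  rcases lt_or_gt_of_ne hz with h | h
  · have ht : 0 < -z.im := by linarith
    have hl := pos_left g_continuous g_strictMono g_Ratio z.re ht
    have hr := pos_right g_continuous g_strictMono g_Ratio z.re ht
    rw [neg_neg] at hl
    exact key _ _ _ _ hl.1 hl.2.1 hr.1 hr.2.1
  · have hl := pos_left g_continuous g_strictMono g_Ratio z.re h
    have hr := pos_right g_continuous g_strictMono g_Ratio z.re h
    exact key _ _ _ _ hr.1 hr.2.1 hl.1 hl.2.1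

lemma distortion_DE {z : ℂ} (hz : z.im ≠ 0) : ‖DE g z‖ ^ 2 ≤ K z * (DE g z).det := by
  refine (distortion g_continuous g_strictMono g_Ratio rho_nonneg hz).trans ?_
  exact mul_le_mul_of_nonneg_right (rho_le_K hz)
    (det_nonneg g_continuous g_strictMono g_Ratio hz)

lemma distortion_Dtr (p u : ℂ) (hu : u ≠ 0) {z : ℂ} (hz : ((S p u hu).symm z).im ≠ 0) :
    ‖Dtr p u hu z‖ ^ 2 ≤ K ((S p u hu).symm z) * (Dtr p u hu z).det := by
  rw [det_Dtr]
  refine le_trans ?_ (distortion_DE hz)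
  gcongr
  exact norm_Dtr p u hu z

lemma ae_im (p u : ℂ) (hu : u ≠ 0) : ∀ᵐ z : ℂ, ((S p u hu).symm z).im ≠ 0 :=
  ae_comp_symm ae_im_ne_zero p u hu

lemma Dtr_ae (p u : ℂ) (hu : u ≠ 0) : Dtr p u hu =ᵐ[volume] fderiv ℝ (tr p u hu) := by
  filter_upwards [ae_im p u hu] with z hz
  exact (hasFDerivAt_tr p u hu hz).fderiv.symm

lemma aestronglyMeasurable_Dtr (p u : ℂ) (hu : u ≠ 0) :
    AEStronglyMeasurable (Dtr p u hu) volume :=
  (measurable_fderiv ℝ (tr p u hu)).aestronglyMeasurable.congr (Dtr_ae p u hu).symm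

lemma locallyIntegrable_Dtr (p u : ℂ) (hu : u ≠ 0) : LocallyIntegrable (Dtr p u hu) volume := by
  have h1 := locallyIntegrable_comp_symm locallyIntegrable_DE p u hu
  refine h1.mono (aestronglyMeasurable_Dtr p u hu) ?_
  exact Eventually.of_forall fun z => norm_Dtr p u hu z

lemma locallyIntegrable_det_Dtr (p u : ℂ) (hu : u ≠ 0) :
    LocallyIntegrable (fun z => (Dtr p u hu z).det) volume := by
  have h1 := locallyIntegrable_comp_symm locallyIntegrable_det p u hu
  simp_rw [det_Dtr]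
  exact h1

lemma locallyIntegrable_exp_Dtr (p u : ℂ) (hu : u ≠ 0) :
    LocallyIntegrable (fun z => Real.exp (1 / (16 * A) * distortionAt (Dtr p u hu z))) volume := by
  have h1 := locallyIntegrable_comp_symm locallyIntegrable_exp p u hu
  refine h1.mono ?_ ?_
  · have hm : Measurable fun z : ℂ =>
        Real.exp (1 / (16 * A) * distortionAt (fderiv ℝ (tr p u hu) z)) := by
      have h2 : Measurable fun z : ℂ => fderiv ℝ (tr p u hu) z := measurable_fderiv ℝ _
      have h3 : Measurable fun z : ℂ => (fderiv ℝ (tr p u hu) z).det :=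
        (ContinuousLinearMap.continuous_det (𝕜 := ℝ) (E := ℂ)).measurable.comp h2
      have h4 : Measurable fun z : ℂ => distortionAt (fderiv ℝ (tr p u hu) z) := by
        unfold distortionAt
        refine Measurable.ite (measurableSet_lt measurable_const h3) ?_ measurable_const
        exact (h2.norm.pow_const 2).div h3
      exact Real.measurable_exp.comp (h4.const_mul _)
    refine hm.aestronglyMeasurable.congr ?_
    filter_upwards [Dtr_ae p u hu] with z hz
    rw [hz]
  · filter_upwards [ae_im p u hu] with z hz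
    rw [Real.norm_of_nonneg (Real.exp_pos _).le, Real.norm_of_nonneg (Real.exp_pos _).le]
    have hA := A_pos
    gcongr
    unfold distortionAt
    split_ifs with h
    · rw [div_le_iff₀ h]
      exact distortion_Dtr p u hu hz
    · exact one_le_K _

lemma weak_tr (p u : ℂ) (hu : u ≠ 0) {φ : ℂ → ℝ} (hφ : ContDiff ℝ 1 φ)
    (hs : HasCompactSupport φ) (v : ℂ) :
    ∫ x, (fderiv ℝ φ x v) • tr p u hu x = - ∫ x, φ x • Dtr p u hu x v := by
  apply integral_S p u hu
  set ψ : ℂ → ℝ := fun y => φ (S p u hu y) with hψ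
  have hSc : ContDiff ℝ 1 (fun y : ℂ => S p u hu y) := by
    simp only [S_apply]
    fun_prop
  have hψc : ContDiff ℝ 1 ψ := hφ.comp hSc
  have hψs : HasCompactSupport ψ := hs.comp_homeomorph (S p u hu)
  have hSd : ∀ y, HasFDerivAt (fun y : ℂ => S p u hu y) (mulL u) y := fun y =>
    (mulL u).hasFDerivAt.const_add p
  have hψd : ∀ y w, fderiv ℝ ψ y w = fderiv ℝ φ (S p u hu y) (u * w) := by
    intro y w
    have h1 := ((hφ.differentiable (by norm_num)) (S p u hu y)).hasFDerivAt.comp y (hSd y)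
    have h2 : fderiv ℝ ψ y = (fderiv ℝ φ (S p u hu y)).comp (mulL u) := h1.fderiv
    rw [h2]
    rfl
  have hF : Continuous fun y : ℂ => p + u * ext g y := by
    have := ext_continuous g_continuous
    fun_prop
  have hFd : ∀ z : ℂ, z.im ≠ 0 → HasFDerivAt (fun y : ℂ => p + u * ext g y)
      ((mulL u).comp (DE g z)) z := fun z hz => by
    have h2 := ((mulL u).hasFDerivAt (x := ext g z)).comp z (ext_hasFDerivAt g_continuous hz)
    exact h2.const_add p
  have hloc : LocallyIntegrable (fun z => (mulL u).comp (DE g z)) volume := by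
    have h1 : AEStronglyMeasurable (fun z => (mulL u).comp (DE g z)) volume :=
      (continuous_const.clm_comp continuous_id).comp_aestronglyMeasurable aestronglyMeasurable_DE
    refine (locallyIntegrable_DE.smul ‖mulL u‖).mono h1 ?_
    refine Eventually.of_forall fun z => ?_
    refine (ContinuousLinearMap.opNorm_comp_le _ _).trans ?_
    rw [Pi.smul_apply, norm_smul, norm_norm]
  have h0 := weak_deriv hF hFd hloc hψc hψs (u⁻¹ * v)
  have e1 : ∀ x, (fderiv ℝ φ (S p u hu x) v) • tr p u hu (S p u hu x) =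
      (fderiv ℝ ψ x (u⁻¹ * v)) • (p + u * ext g x) := by
    intro x
    rw [hψd, mul_inv_cancel_left₀ hu, tr_apply, Homeomorph.symm_apply_apply]
  have e2 : ∀ x, φ (S p u hu x) • Dtr p u hu (S p u hu x) v =
      ψ x • ((mulL u).comp (DE g x)) (u⁻¹ * v) := by
    intro x
    unfold Dtr
    rw [Homeomorph.symm_apply_apply]
    rfl
  simp_rw [e1, e2]
  exact h0

theorem hasExp_tr (p u : ℂ) (hu : u ≠ 0) : HasExpDistortion (tr p u hu) := by
  refine ⟨Dtr p u hu, locallyIntegrable_Dtr p u hu, fun φ hφ hs v => weak_tr p u hu hφ hs v,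
    locallyIntegrable_det_Dtr p u hu, ⟨fun z => K ((S p u hu).symm z), ?_, fun z => one_le_K _, ?_⟩,
    1 / (16 * A), by have := A_pos; positivity, locallyIntegrable_exp_Dtr p u hu⟩
  · have h1 : Measurable K := by
      unfold K
      fun_prop
    exact h1.comp (S p u hu).symm.continuous.measurable
  · filter_upwards [ae_im p u hu] with z hz
    exact distortion_Dtr p u hu hz

/-- The pull-back of the Cantor set. -/
noncomputable def Etr (p u : ℂ) : Set ℂ := (fun t : ℝ => p + t • u) '' (h '' cantorSet)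

lemma volume_ge : ENNReal.ofReal 0.999 ≤ volume (h '' cantorSet) := by
  have h1 : Set.Ico (0:ℝ) 1 ⊆ h '' cantorSet ∪ ⋃ k, h '' bad k := by
    intro x hx
    have h2 : g x ∈ Set.Ico (0:ℝ) 1 := by
      constructor
      · have := g_strictMono.monotone hx.1
        rwa [g_zero] at this
      · have := g_strictMono hx.2
        rwa [g_one] at this
    rcases Ico_subset h2 with h3 | h3
    · exact Or.inl ⟨g x, h3, h_g x⟩
    · right
      rw [Set.mem_iUnion] at h3 ⊢
      obtain ⟨k, hk⟩ := h3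
      exact ⟨k, g x, hk, h_g x⟩
  have h2 : volume (Set.Ico (0:ℝ) 1) ≤ volume (h '' cantorSet) + ENNReal.ofReal (5 * m) := by
    calc volume (Set.Ico (0:ℝ) 1) ≤ volume (h '' cantorSet ∪ ⋃ k, h '' bad k) := measure_mono h1
      _ ≤ volume (h '' cantorSet) + volume (⋃ k, h '' bad k) := measure_union_le _ _
      _ ≤ volume (h '' cantorSet) + ∑' k, volume (h '' bad k) := by
        gcongr; exact measure_iUnion_le _
      _ ≤ volume (h '' cantorSet) + ∑' k, ENNReal.ofReal (5 * eps k) := by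
        gcongr with k; exact volume_image_bad k
      _ ≤ volume (h '' cantorSet) + ENNReal.ofReal (5 * m) := by
        gcongr; exact tsum_eps_le
  rw [Real.volume_Ico] at h2
  have h3 : ENNReal.ofReal (1 - 0) = ENNReal.ofReal (1 - 5 * m) + ENNReal.ofReal (5 * m) := by
    rw [← ENNReal.ofReal_add]
    · congr 1; ring
    · unfold m; norm_num
    · unfold m; norm_num
  rw [h3] at h2
  have h4 := (ENNReal.add_le_add_iff_right ENNReal.ofReal_ne_top).1 h2
  refine le_trans (ENNReal.ofReal_le_ofReal ?_) h4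
  unfold m
  norm_num

lemma h_image_subset : h '' cantorSet ⊆ Set.Icc 0 1 := by
  rintro _ ⟨s, hs, rfl⟩
  have hs' := cantorSet_subset_unitInterval hs
  constructor
  · have := h_strictMono.monotone hs'.1
    have h0 := h_int 0
    push_cast at h0
    rwa [h0] at this
  · have := h_strictMono.monotone hs'.2
    have h0 := h_int 1
    push_cast at h0
    rwa [h0] at this

lemma tr_line (p u : ℂ) (hu : u ≠ 0) (t : ℝ) : tr p u hu (p + t • u) = p + g t • u := by
  rw [tr_apply]
  have h1 : (S p u hu).symm (p + t • u) = (t : ℂ) := by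
    rw [S_symm_apply, Complex.real_smul]
    field_simp
    ring
  rw [h1, ext_ofReal, Complex.real_smul]
  ring

theorem main (p q : ℂ) (hpq : p ≠ q) : ∃ (f : ℂ ≃ₜ ℂ) (E : Set ℂ),
    HasExpDistortion f ∧
    f '' segment ℝ p q = segment ℝ p q ∧
    E ⊆ segment ℝ p q ∧ IsCompact E ∧
    ENNReal.ofReal (0.999 * dist p q) ≤ Measure.hausdorffMeasure 1 E ∧
    f '' E = (fun c : ℝ => p + c • (q - p)) '' cantorSet ∧
    ∀ z : ℂ, ((z - p) / (q - p)).im ≠ 0 →
      DifferentiableAt ℝ f z ∧ 0 < (fderiv ℝ f z).det ∧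
      ‖fderiv ℝ f z‖ ^ 2 ≤ 8 * A * (1 + Real.log (1 + 2 / |((z - p) / (q - p)).im|)) *
        (fderiv ℝ f z).det := by
  have hu : q - p ≠ 0 := sub_ne_zero.2 hpq.symm
  refine ⟨tr p (q - p) hu, Etr p (q - p), hasExp_tr p (q - p) hu, ?_, ?_, ?_, ?_, ?_, ?_⟩
  · rw [segment_eq_image', Set.image_image]
    apply Set.Subset.antisymm
    · rintro _ ⟨t, ht, rfl⟩
      refine ⟨g t, ⟨?_, ?_⟩, (tr_line p _ hu t).symm⟩
      · have := g_strictMono.monotone ht.1
        rwa [g_zero] at this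
      · have := g_strictMono.monotone ht.2
        rwa [g_one] at this
    · rintro _ ⟨s, hs, rfl⟩
      refine ⟨h s, ⟨?_, ?_⟩, ?_⟩
      · have := h_strictMono.monotone hs.1
        have h0 := h_int 0
        push_cast at h0
        rwa [h0] at this
      · have := h_strictMono.monotone hs.2
        have h0 := h_int 1
        push_cast at h0
        rwa [h0] at this
      · simp only [tr_line, g_h]
  · rw [segment_eq_image']
    exact Set.image_mono h_image_subset
  · unfold Etr
    refine (isCompact_cantorSet.image h_continuous).image ?_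
    fun_prop
  · unfold Etr
    have h1 : (fun t : ℝ => p + t • (q - p)) '' (h '' cantorSet) =
        (fun z => p + z) '' ((fun t : ℝ => t • (q - p)) '' (h '' cantorSet)) :=
      (Set.image_image (fun z => p + z) (fun t : ℝ => t • (q - p)) (h '' cantorSet)).symm
    rw [h1, (isometry_add_left p).hausdorffMeasure_image (Or.inl zero_le_one),
      hausdorffMeasure_smul_right_image, hausdorffMeasure_real]
    have h2 := volume_ge
    have h3 : ENNReal.ofReal (0.999 * dist p q) = ‖q - p‖₊ • ENNReal.ofReal 0.999 := by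
      rw [dist_comm, dist_eq_norm, mul_comm, ENNReal.ofReal_mul (norm_nonneg _),
        ofReal_norm_eq_enorm]
      rfl
    rw [h3]
    gcongr
  · unfold Etr
    rw [Set.image_image, Set.image_image]
    apply Set.image_congr
    intro c _
    rw [tr_line, g_h]
  · intro z hz
    have hz' : ((S p (q - p) hu).symm z).im ≠ 0 := by rwa [S_symm_apply]
    have h1 := hasFDerivAt_tr p (q - p) hu hz'
    refine ⟨h1.differentiableAt, ?_, ?_⟩
    · rw [h1.fderiv, det_Dtr]
      exact det_pos hz'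
    · rw [h1.fderiv]
      have h2 := distortion_Dtr p (q - p) hu hz'
      unfold K at h2
      rwa [S_symm_apply] at h2

end Pool.Agent.MPfbc045ins
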